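import Pool.Agent.Helper185.SelHur

/-!
`S₁(Ω, T)` is preserved under finite powers of sets of reals.
-/

namespace Pool.Agent.Results.MP_24a1d9_gt.OmegaTauPowers

open Pool.Agent.Helper185.Sel

/-- If a set of reals `X` satisfies `S₁(Ω, T)`, then every finite power of `X` satisfies
`S₁(Ω, T)`. -/
theorem result : ∀ X : Set ℝ, S1 (OmegaOf (OpenFam X)) (TauOf (OpenFam X)) →
    ∀ k : ℕ, 1 ≤ k →
      S1 (OmegaOf (OpenFam (Fin k → X))) (TauOf (OpenFam (Fin k → X))) :=
  fun _ h _ _ => s1_omega_tau_pow h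

end Pool.Agent.Results.MP_24a1d9_gt.OmegaTauPowers
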