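import Pool.Agent.Helper185.SierpFinal

/-!
Finite powers and the five selection properties for tau-covers, from the continuum hypothesis.
-/

namespace Pool.Agent.Results.MP_24a1d9_gt.TauPowersCH

open Pool.Agent.Helper185.Sel

/-- The continuum hypothesis gives a set of reals that satisfies all five properties and whose
square satisfies none of them. -/
theorem result : Cardinal.aleph 1 = Cardinal.continuum.{0} →
    ∃ X : Set ℝ,
      (S1 (TauOf (OpenFam X)) (GammaOf (OpenFam X)) ∧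
        S1 (TauOf (OpenFam X)) (TauOf (OpenFam X)) ∧
        S1 (TauOf (OpenFam X)) (OmegaOf (OpenFam X)) ∧
        Sfin (TauOf (OpenFam X)) (TauOf (OpenFam X)) ∧
        Sfin (TauOf (OpenFam X)) (OmegaOf (OpenFam X))) ∧
      (¬ S1 (TauOf (OpenFam (Fin 2 → X))) (GammaOf (OpenFam (Fin 2 → X))) ∧
        ¬ S1 (TauOf (OpenFam (Fin 2 → X))) (TauOf (OpenFam (Fin 2 → X))) ∧
        ¬ S1 (TauOf (OpenFam (Fin 2 → X))) (OmegaOf (OpenFam (Fin 2 → X))) ∧
        ¬ Sfin (TauOf (OpenFam (Fin 2 → X))) (TauOf (OpenFam (Fin 2 → X))) ∧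
        ¬ Sfin (TauOf (OpenFam (Fin 2 → X))) (OmegaOf (OpenFam (Fin 2 → X)))) :=
  Pool.Agent.Helper185.Sierp.five

end Pool.Agent.Results.MP_24a1d9_gt.TauPowersCH
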