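import Pool.Agent.Helper185.SierpFinal

/-!
If one of the five selection properties for tau-covers is preserved under finite powers, then
the continuum hypothesis fails.
-/

namespace Pool.Agent.Results.MP_24a1d9_gt.TauPowersRefuteCH

open Pool.Agent.Helper185.Sel

/-- If at least one of the five properties is preserved under finite powers of sets of reals,
then the continuum hypothesis fails. -/
theorem result :
    ((∀ X : Set ℝ, S1 (TauOf (OpenFam X)) (GammaOf (OpenFam X)) →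
        ∀ k : ℕ, 1 ≤ k → S1 (TauOf (OpenFam (Fin k → X))) (GammaOf (OpenFam (Fin k → X)))) ∨
      (∀ X : Set ℝ, S1 (TauOf (OpenFam X)) (TauOf (OpenFam X)) →
        ∀ k : ℕ, 1 ≤ k → S1 (TauOf (OpenFam (Fin k → X))) (TauOf (OpenFam (Fin k → X)))) ∨
      (∀ X : Set ℝ, S1 (TauOf (OpenFam X)) (OmegaOf (OpenFam X)) →
        ∀ k : ℕ, 1 ≤ k → S1 (TauOf (OpenFam (Fin k → X))) (OmegaOf (OpenFam (Fin k → X)))) ∨
      (∀ X : Set ℝ, Sfin (TauOf (OpenFam X)) (TauOf (OpenFam X)) →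
        ∀ k : ℕ, 1 ≤ k → Sfin (TauOf (OpenFam (Fin k → X))) (TauOf (OpenFam (Fin k → X)))) ∨
      (∀ X : Set ℝ, Sfin (TauOf (OpenFam X)) (OmegaOf (OpenFam X)) →
        ∀ k : ℕ, 1 ≤ k → Sfin (TauOf (OpenFam (Fin k → X))) (OmegaOf (OpenFam (Fin k → X))))) →
      Cardinal.aleph 1 ≠ Cardinal.continuum.{0} := by
  intro h hCH
  obtain ⟨X, ⟨h1, h2, h3, h4, h5⟩, ⟨n1, n2, n3, n4, n5⟩⟩ :=
    Pool.Agent.Helper185.Sierp.five hCH
  rcases h with h | h | h | h | h
  · exact n1 (h X h1 2 (by norm_num))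
  · exact n2 (h X h2 2 (by norm_num))
  · exact n3 (h X h3 2 (by norm_num))
  · exact n4 (h X h4 2 (by norm_num))
  · exact n5 (h X h5 2 (by norm_num))

end Pool.Agent.Results.MP_24a1d9_gt.TauPowersRefuteCH
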